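import Pool.Agent.Y796.PA.Near
set_option autoImplicit false

/-!
# Pairs of zeros in the good intervals: every window
-/

open Complex Filter Topology Set MeasureTheory
open scoped BigOperators ComplexConjugate

namespace Pool.Agent.Y796.PA

open H370 H295Iso Pool.Agent.W201

lemma PC_le_NPT {F : ℂ → ℂ} (hF : GoodL F) {T t H α β : ℝ} (hT : 1 < T) (ht : 1 ≤ t) :
    PC (SF F t (t + H)) (2 * Real.pi * α / Real.log T) (2 * Real.pi * β / Real.log T) ≤
      NPT F T t H α β := by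
  classical
  have h1 := NPT_lower hF T t H α β 0 hT ht (SF F t (t + H)) (by
    intro x hx
    have h1 := H344.mem_SF.mp hx
    rw [zero_add, mul_comm]
    exact ⟨(mem_Zf hF ht).mp h1.1, h1.2⟩)
  refine le_trans ?_ h1
  unfold PC
  refine Finset.sum_le_sum fun y _ => Finset.card_le_card ?_
  intro x hx
  rw [Finset.mem_filter] at hx ⊢
  exact ⟨hx.1, hx.2.1.le, hx.2.2.le⟩

/-- every window, in the good intervals -/
theorem win_det {F : ℂ → ℂ} (hF : GoodL F) {L ν δ c h L' : ℝ} (hT : Tier L ν δ c)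
    (hh : 0 < h) (hc : c0 h + (ν + δ) * h < 2) (hL' : L < L' * h) :
    ∃ x0 : ℝ, 0 < x0 ∧ x0 < h ∧ ∀ x : ℝ, x0 ≤ x → x < h →
    ∃ e0 : ℝ, 0 < e0 ∧ ∀ e : ℝ, 0 < e → e ≤ e0 → ∃ κ : ℝ, 0 < κ ∧ ∃ c' : ℝ, 0 < c' ∧
    ∃ T0 : ℝ, 10 ≤ T0 ∧ ∀ T : ℝ, T0 ≤ T →
      ∀ t : ℝ, T ≤ t → ∀ H : ℝ, 1 ≤ H → GoodInt F T H x e t →
      ∀ a b : ℝ, 0 ≤ a → b ≤ κ * H → L' * (2 * Real.pi / Real.log T) ≤ b - a →
        c' * ((b - a) * (H * (Real.log T) ^ 2)) ≤ (PC (SF F t (t + H)) a b : ℝ) := by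
  classical
  have hpi := Real.pi_pos
  have hL0 := hT.L0
  have hν0 := hT.ν0
  have hδ0 := hT.δ0
  set gap : ℝ := 2 - c0 h - (ν + δ) * h with hgap
  have hgap0 : 0 < gap := by rw [hgap]; linarith
  have hL'0 : 0 < L' := by
    by_contra hcon
    push Not at hcon
    nlinarith
  obtain ⟨x0, hx00, hx0h, hcc⟩ : ∃ x0 : ℝ, 0 < x0 ∧ x0 < h ∧
      ∀ x : ℝ, x0 ≤ x → x < h → c0 x ≤ c0 h + gap / 8 ∧ L < L' * x := by
    have hcont := c0_cont hh
    have h1 : ∀ᶠ x in 𝓝 h, c0 x < c0 h + gap / 8 :=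
      hcont.eventually (gt_mem_nhds (by linarith))
    have h2 : ∀ᶠ x in 𝓝 h, L < L' * x := by
      have : ContinuousAt (fun x : ℝ => L' * x) h := by fun_prop
      exact this.eventually (lt_mem_nhds hL')
    have h3 := h1.and h2
    rw [Metric.eventually_nhds_iff] at h3
    obtain ⟨d, hd0, hd⟩ := h3
    refine ⟨max (h - d / 2) (h / 2), lt_of_lt_of_le (by positivity) (le_max_right _ _),
      max_lt (by linarith) (by linarith), fun x hx hxh => ?_⟩
    have h2 : h - d / 2 ≤ x := (le_max_left _ _).trans hx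
    have h4 := hd (y := x) (by
      rw [Real.dist_eq, abs_sub_comm, abs_of_pos (by linarith)]
      linarith)
    exact ⟨h4.1.le, h4.2⟩
  refine ⟨x0, hx00, hx0h, fun x hx1 hx2 => ⟨gap / 24, by positivity, fun e he0 he1 => ?_⟩⟩
  obtain ⟨hcx, hLx⟩ := hcc x hx1 hx2
  have hx0 : 0 < x := hx00.trans_le hx1
  set κ : ℝ := gap / (8 * (ν * h + 1)) with hκ
  have hκ0 : 0 < κ := by positivity
  have hνκ : ν * x * κ ≤ gap / 8 := by
    have h1 : ν * x * κ ≤ ν * h * κ :=
      mul_le_mul_of_nonneg_right (mul_le_mul_of_nonneg_left hx2.le hν0) hκ0.le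
    refine h1.trans ?_
    have h2 : 0 ≤ ν * h := by positivity
    rw [hκ, mul_div_assoc', div_le_div_iff₀ (by positivity) (by norm_num)]
    nlinarith
  set K0 : ℝ := 1 + 3 * ν * L / 2 with hK0
  have hK00 : 0 < K0 := by positivity
  refine ⟨κ, hκ0, x * (gap / 2) / (8 * Real.pi ^ 2 * L), by positivity, ?_⟩
  obtain ⟨T2, hT2⟩ := (Real.tendsto_log_atTop.eventually_ge_atTop
    (max (200 * Real.pi / x) (2 * Real.pi * (K0 * 8 / gap)))).exists_forall_of_atTop
  refine ⟨max 10 T2, le_max_left _ _, fun T hTT t ht H hH hgood => ?_⟩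
  have hT10 : 10 ≤ T := (le_max_left _ _).trans hTT
  have hTT2 := hT2 T ((le_max_right _ _).trans hTT)
  have hl1 : 200 * Real.pi / x ≤ Real.log T := (le_max_left _ _).trans hTT2
  have hl2 : 2 * Real.pi * (K0 * 8 / gap) ≤ Real.log T := (le_max_right _ _).trans hTT2
  have hlog : 0 < Real.log T := Real.log_pos (by linarith)
  have hH0 : 0 < H := by linarith
  obtain ⟨hNN, hQQ⟩ := hgood
  set M : ℝ := H * Real.log T / (2 * Real.pi) with hM
  have hM0 : 0 < M := by positivity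
  have hKM : K0 ≤ gap / 8 * M := by
    have h1 : K0 * 8 / gap ≤ Real.log T / (2 * Real.pi) := by
      rw [le_div_iff₀ (by positivity)]; linarith
    have h2 : K0 * 8 / gap ≤ M := by
      have e4 : M = H * (Real.log T / (2 * Real.pi)) := by rw [hM]; ring
      rw [e4]
      have h9 : 0 ≤ Real.log T / (2 * Real.pi) := by positivity
      nlinarith
    rw [div_le_iff₀ hgap0] at h2
    linarith
  set Λ : ℝ := x * Real.log T with hΛ
  set σ : ℝ := 2 * Real.pi / Λ with hσ
  have hΛ0 : 0 < Λ := by positivity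
  have hσ0 : 0 < σ := by positivity
  have hσ1 : σ ≤ 1 / 100 := by
    rw [hσ, div_le_div_iff₀ hΛ0 (by norm_num)]
    rw [div_le_iff₀ hx0] at hl1
    rw [hΛ]
    linarith
  have hΛσ : Λ * σ = 2 * Real.pi * 1 := by
    rw [hσ]; field_simp
  set r : ℝ := L * σ / 2 with hr
  have hr0 : 0 < r := by positivity
  have hU : 1 ≤ t := by linarith
  have hwin : ∀ a : ℝ, 0 ≤ a → a ≤ κ * H → gap / 2 * M ≤ PC (SF F t (t + H)) a (a + 2 * r) := by
    intro a ha haκ
    have h1 := one_window hF hU (U2 := t + H) (by linarith) (Λ := Λ) (r := r) (ν := ν / σ)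
      (δ := δ / σ) (a := a) hr0 (by positivity) (by positivity) ha
      (hT.hk hσ0 hσ1 one_pos le_rfl (by norm_num) hΛσ)
    refine le_trans ?_ h1
    have h2 := (abs_le.mp hNN).1
    have e0 : t + H - t = H := by ring
    rw [e0]
    have hMσ : H / σ = x * M := by rw [hM, hσ, hΛ]; field_simp
    have h4 : ν / σ * (H + a + 3 * r) ≤ ν * x * M + gap / 8 * M + 3 * ν * L / 2 := by
      have h5 : ν / σ * (H + a + 3 * r) ≤ ν / σ * (H + κ * H + 3 * r) :=
        mul_le_mul_of_nonneg_left (by linarith) (by positivity)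
      have h6 : ν / σ * (H + κ * H + 3 * r) = ν * (H / σ) + (ν * κ) * (H / σ) + 3 * ν * L / 2 := by
        rw [hr]; field_simp
      rw [hMσ] at h6
      have h7 : (ν * x * κ) * M ≤ gap / 8 * M := mul_le_mul_of_nonneg_right hνκ hM0.le
      have h8 : ν * (x * M) + (ν * κ) * (x * M) = ν * x * M + (ν * x * κ) * M := by ring
      linarith
    have h8 : δ / σ * H = δ * x * M := by
      have : δ / σ * H = δ * (H / σ) := by ring
      rw [this, hMσ]; ring
    have h9 : M * (c0 x + e) ≤ M * (c0 h + gap / 8 + e) :=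
      mul_le_mul_of_nonneg_left (by linarith) hM0.le
    have h10 : (ν + δ) * x * M ≤ (ν + δ) * h * M :=
      mul_le_mul_of_nonneg_right (mul_le_mul_of_nonneg_left hx2.le (by linarith)) hM0.le
    have h11 : e * M ≤ gap / 24 * M := mul_le_mul_of_nonneg_right he1 hM0.le
    have h12 : gap * M = 2 * M - c0 h * M - (ν + δ) * h * M := by rw [hgap]; ring
    have h13 : M * (c0 h + gap / 8 + e) = c0 h * M + gap / 8 * M + e * M := by ring
    have h14 : (ν + δ) * x * M = ν * x * M + δ * x * M := by ring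
    rw [h8]
    rw [hK0] at hKM
    linarith
  intro a b ha hb hab
  have h2r : 2 * r = L * σ := by rw [hr]; ring
  have h2r' : 2 * r ≤ b - a := by
    refine le_trans ?_ hab
    rw [h2r, hσ, hΛ]
    rw [show L * (2 * Real.pi / (x * Real.log T)) = (L / x) * (2 * Real.pi / Real.log T) by
      field_simp]
    apply mul_le_mul_of_nonneg_right _ (by positivity)
    rw [div_le_iff₀ hx0]
    exact hLx.le
  have := linear_windows hr0 (mul_nonneg (by positivity) hM0.le) hwin a b ha hb h2r'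
  refine le_trans (le_of_eq ?_) this
  rw [h2r, hσ, hΛ, hM]
  field_simp
  ring

end Pool.Agent.Y796.PA
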