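import Pool.Agent.TH822.AA.Main
import Pool.Agent.H24R3.PairsShort2
import Pool.Agent.W201.Asym
set_option autoImplicit false

/-!
# Pairs of zeros in almost all short intervals: the good intervals
-/

open Complex Filter Topology Set MeasureTheory
open scoped BigOperators ComplexConjugate

namespace Pool.Agent.Y796.PA

open H370 H370.A2 H370.AS H344 H295SI H295Iso Pool.Agent.TH822.AA Pool.Agent.TH822.DZ

/-- the interval `(t, t + H]` has the expected number of zeros and a small pair sum -/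
def GoodInt (F : ℂ → ℂ) (T H x e t : ℝ) : Prop :=
  |(NN F t (t + H) : ℝ) - H * Real.log T / (2 * Real.pi)| ≤
      e * (H * Real.log T / (2 * Real.pi)) ∧
    QQ F (x * Real.log T) t (t + H) ≤ H * Real.log T / (2 * Real.pi) * (c0 x + e)

/-- almost all intervals are good -/
theorem almost_good {F : ℂ → ℂ} (hF : GoodL F) (hB : ∀ τ : ℝ, 0 < τ → τ ≤ 1 → BZr F τ)
    {η0 x e : ℝ} (hη0 : 0 < η0) (hη1 : η0 < 1) (hx : 0 < x) (hx1 : 2 * x < 1 + η0) (he : 0 < e) :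
    ∃ δ : ℝ, 0 < δ ∧ ∃ T0 : ℝ, 10 ≤ T0 ∧ ∀ T : ℝ, T0 ≤ T → ∀ H : ℝ,
      T ^ η0 ≤ H → H ≤ T / 8 →
      volume {t : ℝ | t ∈ Set.Icc T (2 * T) ∧ ¬ GoodInt F T H x e t} ≤
        ENNReal.ofReal (T ^ (1 - δ)) := by
  have h0 : (0 : ℝ) < Real.sqrt 2 := by positivity
  obtain ⟨a, ha, hld⟩ := hF.ld
  have hτ0 : 0 < η0 / 4 := by positivity
  have hR := H793SI.convS _ h0 le_rfl
  have hW := H255SI.winS _ h0 le_rfl
  have hK := H218SI3.kSqS _ h0 le_rfl
  obtain ⟨δ, hδ, T0, hT0, h⟩ := almost_up hR hF ha hld hτ0.le (hB (η0 / 4) hτ0 (by linarith)) η0 x e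
    hη0 hη1 hx hx1 (by nlinarith) he
  refine ⟨δ, hδ, T0, hT0, fun T hT H hH1 hH2 => (measure_mono ?_).trans (h T hT H hH1 hH2)⟩
  rintro t ⟨ht1, ht2⟩
  refine ⟨ht1, fun hcon => ht2 ?_⟩
  obtain ⟨h3, h4⟩ := hcon
  have hT10 : 10 ≤ T := hT0.trans hT
  have hU : 1 ≤ t := by linarith [ht1.1]
  refine ⟨h3, ?_⟩
  have hPS : PS (RS (Real.sqrt 2)) F t (t + H) (x * Real.log T) =
      QQ F (x * Real.log T) t (t + H) := by
    rw [← QQG_eq, H228SI.qqJJ (gS (Real.sqrt 2)) _ hW hR hK F hF t (t + H) hU (x * Real.log T)]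
    rfl
  rw [hPS] at h4
  have e1 : cR (RS (Real.sqrt 2)) x = c0 x := rfl
  rw [e1] at h4
  linarith

end Pool.Agent.Y796.PA
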