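import Pool.Agent.Y796.PA.Near
import Pool.Agent.TH300.ZS.Fin
import Pool.Agent.TH300.ZS.Nbhd
set_option autoImplicit false

/-!
# The neighbourhoods of the simple critical zeros in the good intervals
-/

open Complex Filter Topology Set MeasureTheory
open scoped BigOperators ComplexConjugate

namespace Pool.Agent.Y796.PA

open H370 H295Iso Pool.Agent.W201 Pool.Agent.TH300.ZS

lemma c0_nonneg {h : ℝ} (hh : 0 < h) : 0 ≤ c0 h := by
  have h0 : (0 : ℝ) < Real.sqrt 2 := by positivity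
  have hR := H793SI.convS _ h0 le_rfl
  unfold c0 H295SI.cR
  have h1 : 0 ≤ ∫ α in (0 : ℝ)..1, α * H295SI.RS (Real.sqrt 2) α :=
    intervalIntegral.integral_nonneg zero_le_one fun α hα => mul_nonneg hα.1 (hR.nonneg α)
  have h2 : 0 ≤ H295SI.RS (Real.sqrt 2) 0 := hR.nonneg 0
  positivity

/-- the measure of the neighbourhoods -/
theorem nbhd_det {F : ℂ → ℂ} (hF : GoodL F) {h ε : ℝ} (hh : 0 < h) (hε : 0 < ε) :
    ∃ x0 : ℝ, 0 < x0 ∧ x0 < h ∧ ∀ x : ℝ, x0 ≤ x → x < h →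
    ∃ e0 : ℝ, 0 < e0 ∧ ∀ e : ℝ, 0 < e → e ≤ e0 →
    ∃ T0 : ℝ, 10 ≤ T0 ∧ ∀ T : ℝ, T0 ≤ T →
      ∀ t : ℝ, T ≤ t → ∀ H : ℝ, 1 ≤ H → GoodInt F T H x e t →
      ∀ r : ℝ, 0 < r → h * r ≤ 9 / 10 →
        r * (2 - c0 h - ε) * H ≤
          (volume (UU (r * (2 * Real.pi / Real.log T) / 2) (SF F t (t + H)))).toReal := by
  classical
  have hpi := Real.pi_pos
  obtain ⟨x0, hx00, hx0h, hcc⟩ : ∃ x0 : ℝ, 0 < x0 ∧ x0 < h ∧
      ∀ x : ℝ, x0 ≤ x → x < h → c0 x ≤ c0 h + ε / 4 := by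
    have hcont := c0_cont hh
    have h1 : ∀ᶠ x in 𝓝 h, c0 x < c0 h + ε / 4 :=
      hcont.eventually (gt_mem_nhds (by linarith))
    rw [Metric.eventually_nhds_iff] at h1
    obtain ⟨d, hd0, hd⟩ := h1
    refine ⟨max (h - d / 2) (h / 2), lt_of_lt_of_le (by positivity) (le_max_right _ _),
      max_lt (by linarith) (by linarith), fun x hx hxh => (hd ?_).le⟩
    have h2 : h - d / 2 ≤ x := (le_max_left _ _).trans hx
    rw [Real.dist_eq, abs_sub_comm, abs_of_pos (by linarith)]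
    linarith
  refine ⟨x0, hx00, hx0h, fun x hx1 hx2 => ⟨ε / 12, by positivity, fun e he0 he1 => ?_⟩⟩
  have hx0 : 0 < x := hx00.trans_le hx1
  have hcx := hcc x hx1 hx2
  obtain ⟨T2, hT2⟩ := (Real.tendsto_log_atTop.eventually_ge_atTop
    (max (8 * Real.pi / h) (2 * Real.pi * (4 / ε)))).exists_forall_of_atTop
  refine ⟨max 10 T2, le_max_left _ _, fun T hTT t ht H hH hgood r hr0 hrh => ?_⟩
  have hT10 : 10 ≤ T := (le_max_left _ _).trans hTT
  have hTT2 := hT2 T ((le_max_right _ _).trans hTT)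
  have hl1 : 8 * Real.pi / h ≤ Real.log T := (le_max_left _ _).trans hTT2
  have hl2 : 2 * Real.pi * (4 / ε) ≤ Real.log T := (le_max_right _ _).trans hTT2
  have hlog : 0 < Real.log T := Real.log_pos (by linarith)
  have hH0 : 0 < H := by linarith
  obtain ⟨hNN, hQQ⟩ := hgood
  set M : ℝ := H * Real.log T / (2 * Real.pi) with hM
  have hM0 : 0 < M := by positivity
  set σ : ℝ := 2 * Real.pi / Real.log T with hσ
  have hσ0 : 0 < σ := by positivity
  have hσh : σ ≤ h / 4 := by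
    rw [hσ, div_le_iff₀ hlog]
    rw [div_le_iff₀ hh] at hl1
    linarith
  have hMσ : M = H / σ := by rw [hM, hσ]; field_simp
  have hMε : 4 / ε ≤ M := by
    have h1 : 4 / ε ≤ Real.log T / (2 * Real.pi) := by
      rw [le_div_iff₀ (by positivity)]; linarith
    have e4 : M = H * (Real.log T / (2 * Real.pi)) := by rw [hM]; ring
    rw [e4]
    have h9 : 0 ≤ Real.log T / (2 * Real.pi) := by positivity
    nlinarith
  have hU : 1 ≤ t := by linarith
  set Λ : ℝ := x * Real.log T with hΛ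
  have hΛσ : Λ * σ = 2 * Real.pi * x := by
    rw [hΛ, hσ]; field_simp
  have hrσ : r * σ ≤ 1 / 4 := by
    have : r * σ ≤ r * (h / 4) := mul_le_mul_of_nonneg_left hσh hr0.le
    linarith
  have hrσ0 : 0 < r * σ := mul_pos hr0 hσ0
  have h1 := nbhd hF hU (U2 := t + H) (Λ := Λ) (ρ := r * σ / 2) (ν := 1 / (r * σ)) (by positivity)
    (by positivity) (scaleU hσ0 hr0 hx0 (by
      have : r * x ≤ r * h := mul_le_mul_of_nonneg_left hx2.le hr0.le
      linarith) hrσ hΛσ)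
  have h2 := (abs_le.mp hNN).1
  have h9 : M * (c0 x + e) ≤ M * (c0 h + ε / 4 + ε / 12) :=
    mul_le_mul_of_nonneg_left (by linarith) hM0.le
  have h10 : 1 ≤ ε / 4 * M := by
    rw [div_le_iff₀ hε] at hMε
    linarith
  have h11 : e * M ≤ ε / 12 * M := mul_le_mul_of_nonneg_right he1 hM0.le
  have h12 : M * (2 - c0 h - ε) ≤
      1 / (r * σ) * (volume (UU (r * σ / 2) (SF F t (t + H)))).toReal := by
    have h15 : 0 < ε * M := by positivity
    linarith
  rw [one_div, inv_mul_eq_div, le_div_iff₀ hrσ0] at h12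
  refine le_trans (le_of_eq ?_) h12
  rw [hMσ]
  field_simp

lemma PC_eq (S : Finset ℝ) (a b : ℝ) : PC S a b =
    ((S ×ˢ S).filter (fun p : ℝ × ℝ => a < p.1 - p.2 ∧ p.1 - p.2 < b)).card := by
  classical
  unfold PC
  simp only [Finset.card_filter]
  rw [Finset.sum_product]

/-- families of two points are pairs -/
lemma tup_le_PC (S : Finset ℝ) (α w : ℝ) :
    tup S (![0, α + w] : Fin 2 → ℝ) Finset.univ w ≤ PC S α (α + 2 * w) := by
  classical
  rw [PC_eq]
  unfold tup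
  refine Finset.card_le_card_of_injOn
    (fun x => (x ⟨0, Finset.mem_univ _⟩, x ⟨1, Finset.mem_univ _⟩)) ?_ ?_
  · intro x hx
    rw [Finset.mem_coe, Finset.mem_filter, Fintype.mem_piFinset] at hx
    obtain ⟨h1, h2⟩ := hx
    have h3 := abs_lt.mp (h2 ⟨0, Finset.mem_univ _⟩ ⟨1, Finset.mem_univ _⟩)
    simp only [Matrix.cons_val_zero, Matrix.cons_val_one, add_zero] at h3
    rw [Finset.mem_coe, Finset.mem_filter, Finset.mem_product]
    exact ⟨⟨h1 _, h1 _⟩, by simp only; linarith [h3.1], by simp only; linarith [h3.2]⟩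
  · intro x _ y _ hxy
    have h1 := congrArg Prod.fst hxy
    have h2 := congrArg Prod.snd hxy
    simp only at h1 h2
    funext i
    rcases i with ⟨i, hi⟩
    fin_cases i
    · exact h1
    · exact h2

/-- the explicit inequality for the windows -/
theorem win3_det {F : ℂ → ℂ} (hF : GoodL F) {h r ε : ℝ} (hh : 0 < h) (hr : 0 < r)
    (hrh : h * r ≤ 9 / 10) (hε : 0 < ε) :
    ∃ x0 : ℝ, 0 < x0 ∧ x0 < h ∧ ∀ x : ℝ, x0 ≤ x → x < h →
    ∃ e0 : ℝ, 0 < e0 ∧ ∀ e : ℝ, 0 < e → e ≤ e0 → ∃ κ : ℝ, 0 < κ ∧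
    ∃ T0 : ℝ, 10 ≤ T0 ∧ ∀ T : ℝ, T0 ≤ T →
      ∀ t : ℝ, T ≤ t → ∀ H : ℝ, 1 ≤ H → GoodInt F T H x e t →
      ∀ a : ℝ, 0 ≤ a → a ≤ κ * H →
        (2 * (2 - c0 h) - 1 / r - ε) * (H / (2 * Real.pi) * Real.log T) ≤
          (PC (SF F t (t + H)) a (a + 2 * (r * (2 * Real.pi / Real.log T))) : ℝ) := by
  classical
  have hpi := Real.pi_pos
  obtain ⟨x0, hx00, hx0h, h1⟩ := nbhd_det hF hh (show 0 < ε / 6 by positivity)
  refine ⟨x0, hx00, hx0h, fun x hx1 hx2 => ?_⟩
  obtain ⟨e0, he0, h2⟩ := h1 x hx1 hx2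
  refine ⟨e0, he0, fun e he1 he2 => ⟨ε / 24, by positivity, ?_⟩⟩
  obtain ⟨T1, hT1, h3⟩ := h2 e he1 he2
  obtain ⟨T2, hT2⟩ := (Real.tendsto_log_atTop.eventually_ge_atTop
    (r * (2 * Real.pi) * (24 / ε))).exists_forall_of_atTop
  refine ⟨max T1 T2, hT1.trans (le_max_left _ _), fun T hTT t ht H hH hgood a ha haκ => ?_⟩
  have hTT1 : T1 ≤ T := (le_max_left _ _).trans hTT
  have hTT2 := hT2 T ((le_max_right _ _).trans hTT)
  have hT10 : 10 ≤ T := hT1.trans hTT1
  have hlog : 0 < Real.log T := Real.log_pos (by linarith)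
  have hH0 : 0 < H := by linarith
  have hU := h3 T hTT1 t ht H hH hgood r hr hrh
  set σ : ℝ := 2 * Real.pi / Real.log T with hσ
  have hσ0 : 0 < σ := by positivity
  have hrσ : r * σ ≤ ε / 24 := by
    rw [hσ, mul_div_assoc', div_le_iff₀ hlog]
    have e1 : r * (2 * Real.pi) * (24 / ε) = (r * (2 * Real.pi)) / (ε / 24) := by field_simp
    rw [e1, div_le_iff₀ (by positivity)] at hTT2
    linarith
  have hrσ0 : 0 < r * σ := mul_pos hr hσ0
  have ht1 : 1 ≤ t := by linarith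
  have hS : ∀ x ∈ SF F t (t + H), t ≤ x ∧ x ≤ t + H := by
    intro x hx
    have := SF_mem hF ht1 hx
    exact ⟨this.1.le, this.2⟩
  have hp : 2 - c0 h ≤ 2 := by linarith [c0_nonneg hh]
  have hrσH : r * σ ≤ ε / 24 * H := by nlinarith
  have h4 := tup_fin (S := SF F t (t + H)) (A := t) (H := H) (r := r) (p := 2 - c0 h)
    (ε := ε / 2) (κ := ε / 12) hσ0 hH0 hr hp (by positivity) (by positivity) hS
    (by rw [show ε / 2 / 3 = ε / 6 by ring]; exact hU)
    (by
      have : r * σ / H ≤ ε / 24 := by rw [div_le_iff₀ hH0]; exact hrσH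
      linarith) (![0, a + r * σ] : Fin 2 → ℝ) (by
      intro i
      fin_cases i
      · simp only [Fin.zero_eta, Matrix.cons_val_zero]
        exact ⟨le_rfl, by positivity⟩
      · simp only [Fin.mk_one, Matrix.cons_val_one, Matrix.cons_val_fin_one]
        constructor
        · linarith
        · linarith) 1 1
  have e2 : Finset.powersetCard (1 + 1) (Finset.univ : Finset (Fin 2)) = {Finset.univ} := by
    have := Finset.powersetCard_self (Finset.univ : Finset (Fin 2))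
    simpa using this
  rw [e2, Finset.sum_singleton] at h4
  have h5 : (tup (SF F t (t + H)) (![0, a + r * σ] : Fin 2 → ℝ) Finset.univ (r * σ) : ℝ) ≤
      PC (SF F t (t + H)) a (a + 2 * (r * σ)) := by
    exact_mod_cast tup_le_PC _ _ _
  refine le_trans ?_ (h4.trans h5)
  have e3 : H / (2 * Real.pi) * Real.log T = H / σ := by rw [hσ]; field_simp
  rw [e3]
  apply mul_le_mul_of_nonneg_right _ (by positivity)
  norm_num
  apply le_of_eq
  ring

end Pool.Agent.Y796.PA
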