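import Pool.Agent.Y796.PA.Far
import Pool.Agent.Y796.PA.Nbh
set_option autoImplicit false

/-!
# Pairs of zeros in almost all short intervals
-/

open Complex Filter Topology Set MeasureTheory
open scoped BigOperators ComplexConjugate

namespace Pool.Agent.Y796.PA

open H370 H370.AS H295Iso Pool.Agent.W201 Pool.Agent.TH822.AA Pool.Agent.TH822.DZ Pool.Agent.H24R3.PairsShort

/-- every primitive character -/
theorem bz_prim {q : ℕ} [NeZero q] (χ : DirichletCharacter ℂ q) (hχ : χ.IsPrimitive) :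
    ∀ τ : ℝ, 0 < τ → τ ≤ 1 → BZr (DirichletCharacter.LFunction χ) τ := by
  rcases eq_or_ne χ 1 with h | h
  · have hq : q = 1 := by
      rw [h, DirichletCharacter.IsPrimitive, DirichletCharacter.conductor_one] at hχ
      exact hχ.symm
    subst hq
    rw [DirichletCharacter.LFunction_modOne_eq]
    exact bz_z
  · exact bz_d χ hχ h

/-- the property `P T H t` holds for almost all `t ∈ [T, 2T]`, for all `T ^ η ≤ H ≤ T / 8` -/
def AA (η : ℝ) (P : ℝ → ℝ → ℝ → Prop) : Prop :=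
  ∃ δ : ℝ, 0 < δ ∧ ∃ T0 : ℝ, ∀ T : ℝ, T0 ≤ T → ∀ H : ℝ, T ^ η ≤ H → H ≤ T / 8 →
    volume {t : ℝ | t ∈ Set.Icc T (2 * T) ∧ ¬ P T H t} ≤ ENNReal.ofReal (T ^ (1 - δ))

/-- from the good intervals to almost all intervals -/
theorem aa_of_det {F : ℂ → ℂ} (hF : GoodL F) (hB : ∀ τ : ℝ, 0 < τ → τ ≤ 1 → BZr F τ)
    {η h x e T1 : ℝ} (hη0 : 0 < η) (hη1 : η < 1) (hh : 2 * h ≤ 1 + η) (hx0 : 0 < x) (hx : x < h)
    (he : 0 < e) {P : ℝ → ℝ → ℝ → Prop}
    (hP : ∀ T : ℝ, T1 ≤ T → ∀ t : ℝ, T ≤ t → ∀ H : ℝ, 1 ≤ H → GoodInt F T H x e t → P T H t) :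
    AA η P := by
  obtain ⟨δ, hδ, T0, hT0, h⟩ := almost_good hF hB hη0 hη1 hx0 (by linarith) he
  refine ⟨δ, hδ, max T0 T1, fun T hT H hH1 hH2 => (measure_mono ?_).trans
    (h T ((le_max_left _ _).trans hT) H hH1 hH2)⟩
  rintro t ⟨ht1, ht2⟩
  refine ⟨ht1, fun hcon => ht2 (hP T ((le_max_right _ _).trans hT) t ht1.1 H ?_ hcon)⟩
  have hT10 : 10 ≤ T := hT0.trans ((le_max_left _ _).trans hT)
  exact (Real.one_le_rpow (by linarith) hη0.le).trans hH1

theorem aa_mono {η : ℝ} {P Q : ℝ → ℝ → ℝ → Prop} {T1 : ℝ} (h : AA η P)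
    (hPQ : ∀ T : ℝ, T1 ≤ T → ∀ t : ℝ, T ≤ t → ∀ H : ℝ, T ^ η ≤ H → P T H t → Q T H t) :
    AA η Q := by
  obtain ⟨δ, hδ, T0, h⟩ := h
  refine ⟨δ, hδ, max T0 T1, fun T hT H hH1 hH2 => (measure_mono ?_).trans
    (h T ((le_max_left _ _).trans hT) H hH1 hH2)⟩
  rintro t ⟨ht1, ht2⟩
  exact ⟨ht1, fun hcon => ht2 (hPQ T ((le_max_right _ _).trans hT) t ht1.1 H hH1 hcon)⟩

/-- near windows -/
theorem near_aa {F : ℂ → ℂ} (hF : GoodL F) (hB : ∀ τ : ℝ, 0 < τ → τ ≤ 1 → BZr F τ)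
    {η h r α β ε : ℝ} (hη0 : 0 < η) (hη1 : η < 1) (hh : 0 < h) (hh1 : 2 * h ≤ 1 + η)
    (hr0 : 0 < r) (hr : h * r ≤ 1 / 3) (hα : 0 < α) (hβ : 0 < β) (hε : 0 < ε) :
    AA η (fun T H t => (∑ k ∈ Finset.Icc ⌈α / r⌉₊ ⌊β * pd h r⌋₊, (pd h r - k / β) - ε) *
        (H / (2 * Real.pi) * Real.log T) ≤ (NPT F T t H α β : ℝ)) := by
  obtain ⟨x0, hx0, hxh, h1⟩ := near_det hF hh hr0 hr hα hβ hε
  obtain ⟨e0, he0, h2⟩ := h1 x0 le_rfl hxh
  obtain ⟨T0, -, h3⟩ := h2 e0 he0 le_rfl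
  exact aa_of_det hF hB hη0 hη1 hh1 hx0 hxh he0 h3

/-- a positive proportion -/
theorem near_pos {F : ℂ → ℂ} (hF : GoodL F) (hB : ∀ τ : ℝ, 0 < τ → τ ≤ 1 → BZr F τ)
    {η h β : ℝ} (hη0 : 0 < η) (hη1 : η < 1) (hh : 0 < h) (hh1 : 2 * h ≤ 1 + η)
    (hc : c0 h < 2) (hβ : 1 / (2 - c0 h) < β) :
    ∃ α : ℝ, 0 < α ∧ h * α ≤ 1 / 3 ∧ ∃ c' : ℝ, 0 < c' ∧
      AA η (fun T H t => c' * (H * Real.log T) ≤ (NPT F T t H α β : ℝ)) := by
  have hpi := Real.pi_pos
  have hβ0 : 0 < β := lt_trans (by apply div_pos one_pos; linarith) hβ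
  have h6 : 1 / β < 2 - c0 h := by
    rw [div_lt_iff₀ (by linarith)] at hβ
    rw [div_lt_iff₀ hβ0]
    linarith
  obtain ⟨r, hr0, hr1, hr2⟩ := pd_near_zero hh (δ := (2 - c0 h - 1 / β) / 2) (by linarith)
  set P := pd h r with hP
  set c' : ℝ := (2 - c0 h - 1 / β) / 4 with hc'
  have hc'0 : 0 < c' := by rw [hc']; linarith
  have hlt : c' < P - 1 / β := by rw [hc']; linarith
  have hm := near_aa hF hB hη0 hη1 hh hh1 hr0 hr1 hr0 hβ0 (show 0 < P - 1 / β - c' by linarith)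
  refine ⟨r, hr0, hr1, c' / (2 * Real.pi), by positivity, aa_mono (T1 := 1) hm ?_⟩
  intro T hT t _ H hH h1
  refine le_trans ?_ h1
  have hH0 : 0 ≤ H := (Real.rpow_nonneg (by linarith) _).trans hH
  have hL : 0 ≤ Real.log T := Real.log_nonneg (by linarith)
  have e1 : c' / (2 * Real.pi) * (H * Real.log T) = c' * (H / (2 * Real.pi) * Real.log T) := by
    ring
  rw [e1]
  apply mul_le_mul_of_nonneg_right _ (by positivity)
  rw [div_self hr0.ne', Nat.ceil_one]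
  have hqb : (1 : ℝ) < β * P := by
    have h2 : 1 / β < P := by linarith
    rw [div_lt_iff₀ hβ0] at h2
    linarith
  have h0 : 0 ≤ β * P := by linarith
  have h3 : P - (1 : ℕ) / β ≤ ∑ k ∈ Finset.Icc 1 ⌊β * P⌋₊, (P - k / β) := by
    refine Finset.single_le_sum (f := fun k : ℕ => P - k / β) ?_ ?_
    · intro k hk
      have h1 : (k : ℝ) ≤ β * P := (Nat.le_floor_iff h0).mp (Finset.mem_Icc.mp hk).2
      have h2 : (k : ℝ) / β ≤ P := by rw [div_le_iff₀ hβ0]; linarith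
      linarith
    · exact Finset.mem_Icc.mpr ⟨le_rfl, Nat.le_floor (by push_cast; exact hqb.le)⟩
  push_cast at h3
  linarith

/-- every window -/
theorem win_aa {F : ℂ → ℂ} (hF : GoodL F) (hB : ∀ τ : ℝ, 0 < τ → τ ≤ 1 → BZr F τ)
    {η L ν δ c h L' : ℝ} (hT : Tier L ν δ c) (hη0 : 0 < η) (hη1 : η < 1)
    (hh : 0 < h) (hh1 : 2 * h ≤ 1 + η) (hc : c0 h + (ν + δ) * h < 2) (hL' : L < L' * h) :
    ∃ κ : ℝ, 0 < κ ∧ ∃ c' : ℝ, 0 < c' ∧
      AA η (fun T H t => ∀ α β : ℝ, 0 ≤ α → β ≤ κ * (H * Real.log T) → L' ≤ β - α →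
        c' * ((β - α) * (H * Real.log T)) ≤ (NPT F T t H α β : ℝ)) := by
  have hpi := Real.pi_pos
  obtain ⟨x0, hx0, hxh, h1⟩ := win_det hF hT hh hc hL'
  obtain ⟨e0, he0, h2⟩ := h1 x0 le_rfl hxh
  obtain ⟨κ, hκ, c', hc', T0, hT0, h3⟩ := h2 e0 he0 le_rfl
  refine ⟨κ / (2 * Real.pi), by positivity, 2 * Real.pi * c', by positivity,
    aa_of_det hF hB hη0 hη1 hh1 hx0 hxh he0 (T1 := T0) fun T hT t ht H hH hg α β hα hβ hab => ?_⟩
  have hT10 : 10 ≤ T := hT0.trans hT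
  have hlog : 0 < Real.log T := Real.log_pos (by linarith)
  have h4 := h3 T hT t ht H hH hg (2 * Real.pi * α / Real.log T) (2 * Real.pi * β / Real.log T)
    (by positivity)
    (by
      rw [div_le_iff₀ hlog]
      have : 2 * Real.pi * β ≤ 2 * Real.pi * (κ / (2 * Real.pi) * (H * Real.log T)) :=
        mul_le_mul_of_nonneg_left hβ (by positivity)
      have e : 2 * Real.pi * (κ / (2 * Real.pi) * (H * Real.log T)) = κ * H * Real.log T := by
        field_simp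
      linarith)
    (by
      rw [← sub_div, ← mul_sub, mul_div_assoc', div_le_div_iff_of_pos_right hlog]
      nlinarith)
  have h5 : (PC (SF F t (t + H)) (2 * Real.pi * α / Real.log T) (2 * Real.pi * β / Real.log T) : ℝ)
      ≤ NPT F T t H α β := by
    exact_mod_cast PC_le_NPT hF (by linarith) (by linarith)
  refine le_trans (le_of_eq ?_) (h4.trans h5)
  field_simp

/-- conversion of the counts of pairs -/
lemma conv_PC {F : ℂ → ℂ} (hF : GoodL F) {T t H α β : ℝ} (hT : 1 < T) (ht : 1 ≤ t) :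
    (PC (SF F t (t + H)) (2 * Real.pi * α / Real.log T) (2 * Real.pi * β / Real.log T) : ℝ)
      ≤ NPT F T t H α β := by
  exact_mod_cast PC_le_NPT hF hT ht

/-- the explicit inequality for the windows -/
theorem win3_aa {F : ℂ → ℂ} (hF : GoodL F) (hB : ∀ τ : ℝ, 0 < τ → τ ≤ 1 → BZr F τ)
    {η h r ε : ℝ} (hη0 : 0 < η) (hη1 : η < 1) (hh : 0 < h) (hh1 : 2 * h ≤ 1 + η) (hr : 0 < r)
    (hrh : h * r ≤ 9 / 10) (hε : 0 < ε) :
    ∃ κ : ℝ, 0 < κ ∧ AA η (fun T H t => ∀ α : ℝ, 0 ≤ α → α ≤ κ * (H * Real.log T) →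
        (2 * (2 - c0 h) - 1 / r - ε) * (H / (2 * Real.pi) * Real.log T) ≤
          (NPT F T t H α (α + 2 * r) : ℝ)) := by
  have hpi := Real.pi_pos
  obtain ⟨x0, hx0, hxh, h1⟩ := win3_det hF hh hr hrh hε
  obtain ⟨e0, he0, h2⟩ := h1 x0 le_rfl hxh
  obtain ⟨κ, hκ, T0, hT0, h3⟩ := h2 e0 he0 le_rfl
  refine ⟨κ / (2 * Real.pi), by positivity,
    aa_of_det hF hB hη0 hη1 hh1 hx0 hxh he0 (T1 := T0) fun T hT t ht H hH hg α hα hακ => ?_⟩
  have hT10 : 10 ≤ T := hT0.trans hT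
  have hlog : 0 < Real.log T := Real.log_pos (by linarith)
  have h4 := h3 T hT t ht H hH hg (2 * Real.pi * α / Real.log T) (by positivity)
    (by
      rw [div_le_iff₀ hlog]
      have : 2 * Real.pi * α ≤ 2 * Real.pi * (κ / (2 * Real.pi) * (H * Real.log T)) :=
        mul_le_mul_of_nonneg_left hακ (by positivity)
      have e : 2 * Real.pi * (κ / (2 * Real.pi) * (H * Real.log T)) = κ * H * Real.log T := by
        field_simp
      linarith)
  refine h4.trans (le_trans (le_of_eq ?_) (conv_PC hF (T := T) (t := t) (H := H) (α := α)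
    (β := α + 2 * r) (by linarith) (by linarith)))
  congr 2
  field_simp

/-- every window, from the neighbourhoods -/
theorem win4_aa {F : ℂ → ℂ} (hF : GoodL F) (hB : ∀ τ : ℝ, 0 < τ → τ ≤ 1 → BZr F τ)
    {η h B : ℝ} (hη0 : 0 < η) (hη1 : η < 1) (hh : 0 < h) (hh1 : 2 * h ≤ 1 + η)
    (hc : c0 h + 5 / 9 * h < 2) (hBc : 1 < B * (2 - c0 h)) :
    ∃ κ : ℝ, 0 < κ ∧ ∃ c' : ℝ, 0 < c' ∧
      AA η (fun T H t => ∀ α β : ℝ, 0 ≤ α → β ≤ κ * (H * Real.log T) → B ≤ β - α →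
        c' * ((β - α) * (H * Real.log T)) ≤ (NPT F T t H α β : ℝ)) := by
  have hpi := Real.pi_pos
  set p : ℝ := 2 - c0 h with hp
  have hp0 : 0 < p := by rw [hp]; linarith
  have hB0 : 0 < B := by
    by_contra hcon
    push Not at hcon
    nlinarith
  set r : ℝ := min (B / 2) (9 / (10 * h)) with hr
  have hr0 : 0 < r := by rw [hr]; positivity
  have hrB : 2 * r ≤ B := by
    have : r ≤ B / 2 := min_le_left _ _
    linarith
  have hrh : h * r ≤ 9 / 10 := by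
    have h1 : r ≤ 9 / (10 * h) := min_le_right _ _
    rw [le_div_iff₀ (by positivity)] at h1
    linarith
  have hrp : 1 < 2 * p * r := by
    rcases min_choice (B / 2) (9 / (10 * h)) with h1 | h1
    · rw [hr, h1]
      linarith
    · rw [hr, h1, mul_div_assoc', lt_div_iff₀ (by positivity)]
      linarith
  have hrp2 : 1 / r < 2 * p := by rw [div_lt_iff₀ hr0]; exact hrp
  set ε : ℝ := (2 * p - 1 / r) / 2 with hε
  have hε0 : 0 < ε := by rw [hε]; linarith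
  obtain ⟨x0, hx0, hxh, h1⟩ := win3_det hF hh hr0 hrh hε0
  obtain ⟨e0, he0, h2⟩ := h1 x0 le_rfl hxh
  obtain ⟨κ, hκ, T0, hT0, h3⟩ := h2 e0 he0 le_rfl
  refine ⟨κ / (2 * Real.pi), by positivity, ε / (8 * Real.pi * r), by positivity,
    aa_of_det hF hB hη0 hη1 hh1 hx0 hxh he0 (T1 := T0) fun T hT t ht H hH hg α β hα hβ hab => ?_⟩
  have hT10 : 10 ≤ T := hT0.trans hT
  have hlog : 0 < Real.log T := Real.log_pos (by linarith)
  have hH0 : 0 < H := by linarith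
  set σ : ℝ := 2 * Real.pi / Real.log T with hσ
  have hσ0 : 0 < σ := by positivity
  set M : ℝ := H / (2 * Real.pi) * Real.log T with hM
  have hM0 : 0 < M := by positivity
  have hwin : ∀ a : ℝ, 0 ≤ a → a ≤ κ * H → ε * M ≤ PC (SF F t (t + H)) a (a + 2 * (r * σ)) := by
    intro a ha haκ
    have h4 := h3 T hT t ht H hH hg a ha haκ
    refine le_trans (le_of_eq ?_) h4
    rw [hε]
    ring
  have hab2 : 2 * (r * σ) ≤ 2 * Real.pi * β / Real.log T - 2 * Real.pi * α / Real.log T := by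
    rw [← sub_div, ← mul_sub, hσ]
    rw [show 2 * (r * (2 * Real.pi / Real.log T)) = (2 * Real.pi * (2 * r)) / Real.log T by ring]
    rw [div_le_div_iff_of_pos_right hlog]
    exact mul_le_mul_of_nonneg_left (by linarith) (by positivity)
  have h5 := linear_windows (mul_pos hr0 hσ0) (by positivity) hwin
    (2 * Real.pi * α / Real.log T) (2 * Real.pi * β / Real.log T) (by positivity)
    (by
      rw [div_le_iff₀ hlog]
      have : 2 * Real.pi * β ≤ 2 * Real.pi * (κ / (2 * Real.pi) * (H * Real.log T)) :=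
        mul_le_mul_of_nonneg_left hβ (by positivity)
      have e : 2 * Real.pi * (κ / (2 * Real.pi) * (H * Real.log T)) = κ * H * Real.log T := by
        field_simp
      linarith) hab2
  refine le_trans (le_of_eq ?_) (h5.trans (conv_PC hF (by linarith) (by linarith)))
  rw [hσ, hM]
  field_simp
  ring

end Pool.Agent.Y796.PA
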