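import Pool.Agent.Y796.PA.Good
set_option autoImplicit false

/-!
# Pairs of zeros in the good intervals: near windows
-/

open Complex Filter Topology Set MeasureTheory
open scoped BigOperators ComplexConjugate

namespace Pool.Agent.Y796.PA

open H370 H344 H295SI H295Iso Pool.Agent.H24R3.PairsShort

/-- isolated simple critical zeros in the good intervals -/
theorem iso_det {F : ℂ → ℂ} (hF : GoodL F) {h r ε : ℝ} (hh : 0 < h)
    (hr0 : 0 ≤ r) (hr : h * r ≤ 1 / 3) (hε : 0 < ε) :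
    ∃ x0 : ℝ, 0 < x0 ∧ x0 < h ∧ ∀ x : ℝ, x0 ≤ x → x < h →
    ∃ e0 : ℝ, 0 < e0 ∧ ∀ e : ℝ, 0 < e → e ≤ e0 → ∃ T0 : ℝ, 10 ≤ T0 ∧ ∀ T : ℝ, T0 ≤ T →
      ∀ t : ℝ, T ≤ t → ∀ H : ℝ, 0 < H → GoodInt F T H x e t →
      (pd h r - ε) * (NN F t (t + H) : ℝ) ≤
        (SI F t (t + H) (2 * Real.pi * r / Real.log T)
          (4 * Real.pi / 5 / (h * Real.log T))).card := by
  classical
  have hpi := Real.pi_pos
  have hpi2 : Real.pi < 3.15 := Real.pi_lt_d2
  set K2 : ℝ := KK (h * r) ^ 2 with hK2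
  set A : ℝ := 1 - (c0 h - 1) / K2 - ε with hA
  have hPA : pd h r - ε = A := rfl
  rw [hPA]
  by_cases hA0 : A ≤ 0
  · refine ⟨h / 2, by positivity, by linarith, fun x _ _ => ⟨1, one_pos, fun e _ _ =>
      ⟨10, le_rfl, fun T _ t _ H _ _ => ?_⟩⟩⟩
    have h1 : A * (NN F t (t + H) : ℝ) ≤ 0 := mul_nonpos_of_nonpos_of_nonneg hA0 (by positivity)
    exact h1.trans (by positivity)
  push Not at hA0
  have hhr0 : 0 ≤ h * r := by positivity
  have hKa : 0.824 ≤ KK (h * r) := KK_third hhr0 hr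
  have hKb : KK (h * r) ≤ 1 := KK_le_one _
  have hK0 : 0.678 ≤ K2 := by
    have : (0.824 : ℝ) ^ 2 ≤ KK (h * r) ^ 2 := pow_le_pow_left₀ (by norm_num) hKa 2
    norm_num at this ⊢
    linarith
  have hK1 : K2 ≤ 1 := by rw [hK2]; nlinarith
  have hK20 : 0 < K2 := by linarith
  -- parameters
  obtain ⟨x0, hx00, hx0h, hcc⟩ : ∃ x0 : ℝ, 0 < x0 ∧ x0 < h ∧
      ∀ x : ℝ, x0 ≤ x → x < h → c0 x ≤ c0 h + ε * K2 / 4 := by
    have hcont := c0_cont hh
    have h1 : ∀ᶠ x in 𝓝 h, c0 x < c0 h + ε * K2 / 4 :=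
      hcont.eventually (gt_mem_nhds (by have : 0 < ε * K2 := by positivity
                                        linarith))
    rw [Metric.eventually_nhds_iff] at h1
    obtain ⟨d, hd0, hd⟩ := h1
    refine ⟨max (h - d / 2) (h / 2), lt_of_lt_of_le (by positivity) (le_max_right _ _),
      max_lt (by linarith) (by linarith), fun x hx hxh => (hd ?_).le⟩
    have h2 : h - d / 2 ≤ x := (le_max_left _ _).trans hx
    rw [Real.dist_eq, abs_sub_comm, abs_of_pos (by linarith)]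
    linarith
  set e : ℝ := min (1 / 10) (ε * K2 / (8 * (|c0 h - 1| + 1))) with he
  have he0 : 0 < e := by rw [he]; positivity
  have he1 : e ≤ 1 / 10 := min_le_left _ _
  have hec : e * |c0 h - 1| ≤ ε * K2 / 8 := by
    have h1 : e ≤ ε * K2 / (8 * (|c0 h - 1| + 1)) := min_le_right _ _
    rw [le_div_iff₀ (by positivity)] at h1
    have h2 := abs_nonneg (c0 h - 1)
    nlinarith
  have heε : e * (ε * K2) ≤ ε * K2 / 8 := by
    have : 0 < ε * K2 := by positivity
    nlinarith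
  set η : ℝ := min (1 / 100) (ε * K2 / (4 * (15 + 8 * A + 1))) with hη
  have hη0 : 0 < η := by rw [hη]; positivity
  have hη1 : η ≤ 1 / 100 := min_le_left _ _
  have heta : (15 + 8 * A + 1) * η ≤ ε * K2 / 4 := by
    have h1 : η ≤ ε * K2 / (4 * (15 + 8 * A + 1)) := min_le_right _ _
    rw [le_div_iff₀ (by positivity)] at h1
    linarith
  refine ⟨x0, hx00, hx0h, fun x hx1 hx2 => ⟨η, hη0, fun e' he'0 he'η => ?_⟩⟩
  obtain ⟨T3, hT3, hKB⟩ := kernel_bounds hhr0 hr he0 (by linarith)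
  -- largeness of `T`
  have htop : Tendsto (fun T : ℝ => T ^ h) atTop atTop := tendsto_rpow_atTop hh
  obtain ⟨T4, hT4⟩ := (htop.eventually_ge_atTop T3).exists_forall_of_atTop
  refine ⟨max 10 T4, le_max_left _ _, fun T hT t ht H hH hgood => ?_⟩
  have hT10 : 10 ≤ T := (le_max_left _ _).trans hT
  have hTh3 := hT4 T ((le_max_right _ _).trans hT)
  have hL : 0 < Real.log T := Real.log_pos (by linarith)
  obtain ⟨hNN, hQQ⟩ := hgood
  set M : ℝ := H * Real.log T / (2 * Real.pi) with hM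
  have hM0 : 0 < M := by positivity
  obtain ⟨hNNl, hNNu⟩ := abs_le.mp hNN
  have hlogTh : Real.log (T ^ h) = h * Real.log T := Real.log_rpow (by linarith) h
  have hx0 : 0 < x := hx00.trans_le hx1
  have hΛ0 : 0 ≤ x * Real.log T := mul_nonneg hx0.le hL.le
  have hΛ1 : x * Real.log T ≤ Real.log (T ^ h) := by
    rw [hlogTh]
    exact mul_le_mul_of_nonneg_right hx2.le hL.le
  obtain ⟨hk1, hk2⟩ := hKB (T ^ h) hTh3 (x * Real.log T) hΛ0 hΛ1
  have hρe : 2 * Real.pi * (h * r) / Real.log (T ^ h) = 2 * Real.pi * r / Real.log T := by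
    rw [hlogTh]; field_simp
  rw [hρe] at hk1 hk2
  rw [hlogTh] at hk2
  have hU : 1 ≤ t := by linarith
  have hρ0 : 0 ≤ 2 * Real.pi * r / Real.log T := by positivity
  have hh0 : 0 ≤ 4 * Real.pi / 5 / (h * Real.log T) := by positivity
  have hq00 : 0 ≤ (1 - e) * K2 := mul_nonneg (by linarith) hK20.le
  have core := core_ineq (U2 := t + H) hF hU (x * Real.log T) _ _ ((1 - e) * K2)
    hρ0 hh0 hq00 hk1 hk2 (fun _ _ => 0) (by
      intro v
      simp only [zero_mul, Finset.sum_const_zero]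
      exact Finset.sum_nonneg fun x _ => by positivity)
  rw [YT_zero, add_zero] at core
  have hNsNN : (Ns F t (t + H) : ℝ) ≤ NN F t (t + H) := by exact_mod_cast H295Iso.Ns_le_NN hF hU
  have he'M : e' * M ≤ η * M := mul_le_mul_of_nonneg_right he'η hM0.le
  have hηM : 0 < η * M := by positivity
  have hQ' : QQ F (x * Real.log T) t (t + H) ≤ M * (c0 x + η) :=
    hQQ.trans (mul_le_mul_of_nonneg_left (by linarith) hM0.le)
  exact num_core (N := (NN F t (t + H) : ℝ)) (s := (Ns F t (t + H) : ℝ))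
    (Q := QQ F (x * Real.log T) t (t + H)) (CL := 0) (NT := (NN F t (t + H) : ℝ))
    (M := M) (q := (1 - e) * K2) (c := c0 h) (c' := c0 x) (K2 := K2)
    hM0 hK0 hK1 hNsNN rfl he0 he1 hη0 hη1 core (by linarith) (by linarith) hQ'
    (hcc x hx1 hx2) hec hA hA0
    heta heε (by positivity) (by linarith) (by linarith) hε

/-- ordered pairs of zeros of `F` with ordinates in `(t, t + H]`, with multiplicity, with difference
of the ordinates times `log T / 2π` in `[α, β]` -/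
noncomputable def NPT (F : ℂ → ℂ) (T t H α β : ℝ) : ℕ :=
  ∑ᶠ s ∈ zset F t (t + H), ∑ᶠ s' ∈ {s' : ℂ | s' ∈ zset F t (t + H) ∧
    α ≤ (s.im - s'.im) * Real.log T / (2 * Real.pi) ∧
    (s.im - s'.im) * Real.log T / (2 * Real.pi) ≤ β}, mult F s * mult F s'

/-- the finite form of the lower bound -/
lemma NPT_lower {F : ℂ → ℂ} (hF : GoodL F) (T t H α β u : ℝ) (hT : 1 < T) (ht : 1 ≤ t)
    (A : Finset ℝ)
    (hA : ∀ x ∈ A, (1 / 2 + ((u + x : ℝ) : ℂ) * I : ℂ) ∈ zset F t (t + H) ∧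
      mult F (1 / 2 + ((u + x : ℝ) : ℂ) * I : ℂ) = 1) :
    ∑ y ∈ A, (A.filter (fun x => 2 * Real.pi * α / Real.log T ≤ y - x ∧
      y - x ≤ 2 * Real.pi * β / Real.log T)).card ≤ NPT F T t H α β := by
  classical
  have hlog : 0 < Real.log T := Real.log_pos hT
  have hpi := Real.pi_pos
  have hfinZ : (zset F t (t + H)).Finite := zset_finite hF t (t + H) ht
  set Z := hfinZ.toFinset with hZ
  have hN : NPT F T t H α β = ∑ s ∈ Z, ∑ s' ∈ Z.filter (fun s' =>
      α ≤ (s.im - s'.im) * Real.log T / (2 * Real.pi) ∧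
      (s.im - s'.im) * Real.log T / (2 * Real.pi) ≤ β), mult F s * mult F s' := by
    unfold NPT
    rw [finsum_mem_eq_finite_toFinset_sum _ hfinZ]
    refine Finset.sum_congr rfl fun s _ => ?_
    have hfin : {s' : ℂ | s' ∈ zset F t (t + H) ∧
        α ≤ (s.im - s'.im) * Real.log T / (2 * Real.pi) ∧
        (s.im - s'.im) * Real.log T / (2 * Real.pi) ≤ β}.Finite :=
      hfinZ.subset fun _ h => h.1
    rw [finsum_mem_eq_finite_toFinset_sum _ hfin]
    refine Finset.sum_congr ?_ fun _ _ => rfl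
    ext s'
    rw [Set.Finite.mem_toFinset, Finset.mem_filter, hZ, Set.Finite.mem_toFinset]
    rfl
  rw [hN]
  set g : ℝ → ℂ := fun x => 1 / 2 + ((u + x : ℝ) : ℂ) * I with hg
  have him : ∀ x : ℝ, (g x).im = u + x := by intro x; simp [hg]
  have hinj : Function.Injective g := by
    intro x y hxy
    have := congrArg Complex.im hxy
    rw [him, him] at this
    linarith
  have hsub : A.image g ⊆ Z := by
    intro s hs
    obtain ⟨x, hx, rfl⟩ := Finset.mem_image.mp hs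
    rw [hZ, Set.Finite.mem_toFinset]
    exact (hA x hx).1
  refine le_trans ?_ (Finset.sum_le_sum_of_subset hsub)
  rw [Finset.sum_image fun x _ y _ h => hinj h]
  refine Finset.sum_le_sum fun y hy => ?_
  have hsub2 : (A.filter (fun x => 2 * Real.pi * α / Real.log T ≤ y - x ∧
      y - x ≤ 2 * Real.pi * β / Real.log T)).image g ⊆ Z.filter (fun s' =>
      α ≤ ((g y).im - s'.im) * Real.log T / (2 * Real.pi) ∧
      ((g y).im - s'.im) * Real.log T / (2 * Real.pi) ≤ β) := by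
    intro s hs
    obtain ⟨x, hx, rfl⟩ := Finset.mem_image.mp hs
    obtain ⟨hx1, hx2, hx3⟩ := Finset.mem_filter.mp hx
    have e : u + y - (u + x) = y - x := by ring
    refine Finset.mem_filter.mpr ⟨hsub (Finset.mem_image_of_mem g hx1), ?_, ?_⟩
    · rw [him, him, e, le_div_iff₀ (by positivity)]
      rw [div_le_iff₀ hlog] at hx2
      linarith
    · rw [him, him, e, div_le_iff₀ (by positivity)]
      rw [le_div_iff₀ hlog] at hx3
      linarith
  refine le_trans ?_ (Finset.sum_le_sum_of_subset hsub2)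
  rw [Finset.sum_image fun x _ y _ h => hinj h, Finset.card_eq_sum_ones]
  refine Finset.sum_le_sum fun x hx => ?_
  rw [(hA y hy).2, (hA x (Finset.mem_filter.mp hx).1).2]

/-- the shifted ordinates of the isolated zeros in `(t, t + H]` -/
theorem ordinatesT {F : ℂ → ℂ} (hF : GoodL F) {t H ρ w : ℝ} (ht : 1 ≤ t) (hw : 0 ≤ w) :
    ∃ A : Finset ℝ, A.card = (SI F t (t + H) ρ w).card ∧ (∀ x ∈ A, 0 < x ∧ x ≤ H) ∧
      (∀ x ∈ A, (1 / 2 + ((t + x : ℝ) : ℂ) * I : ℂ) ∈ zset F t (t + H) ∧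
        mult F (1 / 2 + ((t + x : ℝ) : ℂ) * I : ℂ) = 1) ∧
      ∀ x ∈ A, ∀ z ∈ A, x < z → ρ < z - x := by
  classical
  have hinj : Function.Injective (fun y : ℝ => y - t) := fun a b h => by
    simp only at h; linarith
  have hsub : SI F t (t + H) ρ w ⊆ SF F t (t + H) := Finset.filter_subset _ _
  refine ⟨(SI F t (t + H) ρ w).image (fun y : ℝ => y - t), Finset.card_image_of_injective _ hinj,
    ?_, ?_, ?_⟩
  · intro x hx
    obtain ⟨s, hs, rfl⟩ := Finset.mem_image.mp hx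
    have := SF_mem hF ht (hsub hs)
    exact ⟨by linarith [this.1], by linarith [this.2]⟩
  · intro x hx
    obtain ⟨s, hs, rfl⟩ := Finset.mem_image.mp hx
    have h1 := mem_SF.mp (hsub hs)
    have e : (1 / 2 + ((t + (s - t) : ℝ) : ℂ) * I : ℂ) = 1 / 2 + I * s := by
      rw [show t + (s - t) = s by ring, mul_comm]
    rw [e]
    exact ⟨(mem_Zf hF ht).mp h1.1, h1.2⟩
  · intro x hx z hz hxz
    obtain ⟨s, hs, rfl⟩ := Finset.mem_image.mp hx
    obtain ⟨s', hs', rfl⟩ := Finset.mem_image.mp hz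
    by_contra hcon
    push Not at hcon
    have h0 : s < s' := by linarith
    have h1 := hs
    rw [SI, Finset.mem_filter] at h1
    have h2 := mem_SF.mp (hsub hs')
    have h3 := h1.2 (1 / 2 + I * s' : ℂ) h2.1 (by
      intro h4
      have := congrArg Complex.im h4
      simp at this
      linarith) (by
      simp only [Complex.add_im, Complex.mul_im, Complex.I_re, Complex.ofReal_im, mul_zero,
        Complex.I_im, Complex.ofReal_re, one_mul, zero_add]
      norm_num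
      rw [abs_of_pos (by linarith)]
      linarith)
    simp at h3
    linarith

/-- the near windows in the good intervals -/
theorem near_det {F : ℂ → ℂ} (hF : GoodL F) {h r α β ε : ℝ} (hh : 0 < h)
    (hr0 : 0 < r) (hr : h * r ≤ 1 / 3) (hα : 0 < α) (hβ : 0 < β) (hε : 0 < ε) :
    ∃ x0 : ℝ, 0 < x0 ∧ x0 < h ∧ ∀ x : ℝ, x0 ≤ x → x < h →
    ∃ e0 : ℝ, 0 < e0 ∧ ∀ e : ℝ, 0 < e → e ≤ e0 → ∃ T0 : ℝ, 10 ≤ T0 ∧ ∀ T : ℝ, T0 ≤ T →
      ∀ t : ℝ, T ≤ t → ∀ H : ℝ, 1 ≤ H → GoodInt F T H x e t →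
      (∑ k ∈ Finset.Icc ⌈α / r⌉₊ ⌊β * pd h r⌋₊, (pd h r - k / β) - ε) *
        (H / (2 * Real.pi) * Real.log T) ≤ (NPT F T t H α β : ℝ) := by
  classical
  have hpi := Real.pi_pos
  set P := pd h r with hP
  set Kn := ⌊β * P⌋₊ with hKn
  set κ : ℝ := ε / (4 * (Kn + 1)) with hκ
  have hκ0 : 0 < κ := by positivity
  obtain ⟨x0, hx00, hx0h, hiso⟩ := iso_det hF hh hr0.le hr hκ0
  refine ⟨x0, hx00, hx0h, fun x hx1 hx2 => ?_⟩
  obtain ⟨e0, he0, hiso⟩ := hiso x hx1 hx2
  -- `η` for the counting function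
  set η : ℝ := κ / (|P| + κ + 1) with hη
  have hη0 : 0 < η := by positivity
  refine ⟨min e0 η, lt_min he0 hη0, fun e he hee => ?_⟩
  obtain ⟨T1, hT1, hiso⟩ := hiso e he (hee.trans (min_le_left _ _))
  have heη : e ≤ η := hee.trans (min_le_right _ _)
  obtain ⟨T2, hT2⟩ := (Real.tendsto_log_atTop.eventually_ge_atTop
    (2 * Real.pi * (4 * (Kn + 1) ^ 2 / ε))).exists_forall_of_atTop
  refine ⟨max T1 T2, hT1.trans (le_max_left _ _), fun T hT t ht H hH hgood => ?_⟩
  have hTT1 : T1 ≤ T := (le_max_left _ _).trans hT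
  have hTT2 := hT2 T ((le_max_right _ _).trans hT)
  have hT10 : 10 ≤ T := hT1.trans hTT1
  have hL : 0 < Real.log T := Real.log_pos (by linarith)
  have hH0 : 0 < H := by linarith
  set M : ℝ := H / (2 * Real.pi) * Real.log T with hM
  have hM0 : 0 < M := by positivity
  have e2 : H * Real.log T / (2 * Real.pi) = M := by rw [hM]; ring
  -- the counting function
  have hNN : (1 - η) * M ≤ (NN F t (t + H) : ℝ) := by
    have h1 := (abs_le.mp hgood.1).1
    rw [e2] at h1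
    have h2 : e * M ≤ η * M := mul_le_mul_of_nonneg_right heη hM0.le
    linarith
  have hNN0 : (0 : ℝ) ≤ NN F t (t + H) := Nat.cast_nonneg _
  have h1 := hiso T hTT1 t ht H hH0 hgood
  have hw : 0 ≤ 4 * Real.pi / 5 / (h * Real.log T) := by positivity
  obtain ⟨A, hA1, hA2, hA3, hA4⟩ := ordinatesT hF (t := t) (H := H)
    (ρ := 2 * Real.pi * r / Real.log T) (by linarith) hw
  have hcard : (P - 2 * κ) * M ≤ (A.card : ℝ) := by
    by_cases hc : P - κ ≤ 0
    · have h2 : (P - 2 * κ) * M ≤ 0 := mul_nonpos_of_nonpos_of_nonneg (by linarith) hM0.le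
      exact h2.trans (Nat.cast_nonneg _)
    · push Not at hc
      rw [hA1]
      refine le_trans ?_ h1
      have h3 : (P - κ) * ((1 - η) * M) ≤ (P - κ) * (NN F t (t + H) : ℝ) :=
        mul_le_mul_of_nonneg_left hNN hc.le
      refine le_trans ?_ h3
      have h4 : (P - κ) * η ≤ κ := by
        rw [hη, mul_div_assoc', div_le_iff₀ (by positivity)]
        have h5 : P - κ ≤ |P| + κ + 1 := by linarith [le_abs_self P]
        nlinarith
      have : (P - κ) * ((1 - η) * M) - (P - 2 * κ) * M = (κ - (P - κ) * η) * M := by ring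
      have h6 : 0 ≤ (κ - (P - κ) * η) * M := mul_nonneg (by linarith) hM0.le
      linarith
  have g1 := NPT_lower hF T t H α β t (by linarith) (by linarith) A hA3
  have g1' : ∑ y ∈ A, ((A.filter (fun x => 2 * Real.pi * α / Real.log T ≤ y - x ∧
      y - x ≤ 2 * Real.pi * β / Real.log T)).card : ℝ) ≤ (NPT F T t H α β : ℝ) := by
    exact_mod_cast g1
  have g2 := Pool.Agent.H820R3.PC.comb A H (2 * Real.pi * β / Real.log T)
    (2 * Real.pi * α / Real.log T) (2 * Real.pi * r / Real.log T) hH0.le (by positivity)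
    (by positivity) (by positivity) hA2 hA4 Kn
  refine le_trans ?_ (g2.trans g1')
  have e1 : 2 * Real.pi * α / Real.log T / (2 * Real.pi * r / Real.log T) = α / r := by
    field_simp
  have e2 : H / (2 * Real.pi * β / Real.log T) = M / β := by
    rw [hM]
    field_simp
  rw [e1, e2]
  have hq1 : 1 ≤ ⌈α / r⌉₊ := Nat.ceil_pos.mpr (div_pos hα hr0)
  have hKn0 : (0 : ℝ) ≤ Kn := Nat.cast_nonneg _
  have g3 : ∀ k ∈ Finset.Icc ⌈α / r⌉₊ Kn,
      (P - k / β) * M - (2 * κ * M + Kn) ≤ (A.card : ℝ) - k * (M / β + 1) := by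
    intro k hk
    have hkK : (k : ℝ) ≤ Kn := by exact_mod_cast (Finset.mem_Icc.mp hk).2
    have e3 : (k : ℝ) * (M / β + 1) = k / β * M + k := by field_simp
    rw [e3]
    nlinarith
  refine le_trans ?_ (Finset.sum_le_sum g3)
  have g9 : ∑ k ∈ Finset.Icc ⌈α / r⌉₊ Kn, ((P - (k : ℝ) / β) * M - (2 * κ * M + Kn)) =
      (∑ k ∈ Finset.Icc ⌈α / r⌉₊ Kn, (P - (k : ℝ) / β)) * M -
        ((Finset.Icc ⌈α / r⌉₊ Kn).card : ℝ) * (2 * κ * M + Kn) := by
    rw [Finset.sum_mul, Finset.sum_sub_distrib (fun k : ℕ => (P - (k : ℝ) / β) * M)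
      (fun _ => (2 * κ * M + Kn)), Finset.sum_const, nsmul_eq_mul]
  rw [g9]
  have hcc : ((Finset.Icc ⌈α / r⌉₊ Kn).card : ℝ) ≤ Kn := by
    rw [Nat.card_Icc]
    have : Kn + 1 - ⌈α / r⌉₊ ≤ Kn := by omega
    exact_mod_cast this
  have g4 : 0 ≤ 2 * κ * M + Kn := by positivity
  have g5 : ((Finset.Icc ⌈α / r⌉₊ Kn).card : ℝ) * (2 * κ * M + Kn) ≤ Kn * (2 * κ * M + Kn) :=
    mul_le_mul_of_nonneg_right hcc g4
  have g6 : (Kn : ℝ) * (2 * κ) ≤ ε / 2 := by
    rw [hκ]
    have : (Kn : ℝ) * (2 * (ε / (4 * (Kn + 1)))) = ε / 2 * (Kn / (Kn + 1)) := by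
      field_simp
      ring
    rw [this]
    have h7 : (Kn : ℝ) / (Kn + 1) ≤ 1 := by
      rw [div_le_one (by positivity)]; linarith
    have h8 : 0 < ε / 2 := by positivity
    nlinarith
  have g7 : (Kn : ℝ) * Kn ≤ ε / 2 * M := by
    have h7 : 4 * ((Kn : ℝ) + 1) ^ 2 / ε ≤ Real.log T / (2 * Real.pi) := by
      rw [le_div_iff₀ (by positivity)]; linarith
    have h8 : 4 * ((Kn : ℝ) + 1) ^ 2 / ε ≤ M := by
      have e4 : M = H * (Real.log T / (2 * Real.pi)) := by rw [hM]; ring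
      rw [e4]
      have h9 : 0 ≤ Real.log T / (2 * Real.pi) := by positivity
      nlinarith
    rw [div_le_iff₀ hε] at h8
    nlinarith
  have g8 : (Kn : ℝ) * (2 * κ * M + Kn) ≤ ε * M := by
    have : (Kn : ℝ) * (2 * κ * M + Kn) = (Kn * (2 * κ)) * M + Kn * Kn := by ring
    rw [this]
    have h9 : (Kn * (2 * κ)) * M ≤ ε / 2 * M := mul_le_mul_of_nonneg_right g6 hM0.le
    linarith
  rw [sub_mul]
  linarith

end Pool.Agent.Y796.PA
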