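import Pool.Agent.Y796.PA.Main
set_option autoImplicit false

/-!
# Patterns and isolated zeros in almost all short intervals
-/

open Complex Filter Topology Set MeasureTheory
open scoped BigOperators ComplexConjugate

namespace Pool.Agent.Y796.PA

open H370 H370.AS H295Iso Pool.Agent.W201 Pool.Agent.TH822.AA Pool.Agent.TH822.DZ
  Pool.Agent.H24R3.PairsShort Pool.Agent.TH300.ZS

/-- isolated simple critical zeros -/
theorem iso_aa {F : ℂ → ℂ} (hF : GoodL F) (hB : ∀ τ : ℝ, 0 < τ → τ ≤ 1 → BZr F τ)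
    {η h r ε : ℝ} (hη0 : 0 < η) (hη1 : η < 1) (hh : 0 < h) (hh1 : 2 * h ≤ 1 + η)
    (hr0 : 0 ≤ r) (hr : h * r ≤ 1 / 3) (hε : 0 < ε) :
    AA η (fun T H t => (pd h r - ε) * (NN F t (t + H) : ℝ) ≤
        (H344.SI F t (t + H) (2 * Real.pi * r / Real.log T)
          (4 * Real.pi / 5 / (h * Real.log T))).card) := by
  obtain ⟨x0, hx0, hxh, h1⟩ := iso_det hF hh hr0 hr hε
  obtain ⟨e0, he0, h2⟩ := h1 x0 le_rfl hxh
  obtain ⟨T0, -, h3⟩ := h2 e0 he0 le_rfl
  exact aa_of_det hF hB hη0 hη1 hh1 hx0 hxh he0 fun T hT t ht H hH hg =>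
    h3 T hT t ht H (by linarith) hg

/-- isolated simple critical zeros, with no other zero in the box -/
theorem iso_aa2 {F : ℂ → ℂ} (hF : GoodL F) (hB : ∀ τ : ℝ, 0 < τ → τ ≤ 1 → BZr F τ)
    {η h r ε : ℝ} (hη0 : 0 < η) (hη1 : η < 1) (hh : 0 < h) (hh1 : 2 * h ≤ 1 + η)
    (hr0 : 0 ≤ r) (hr : h * r ≤ 1 / 3) (hε : 0 < ε) :
    AA η (fun T H t => (pd h r - ε) * (NN F t (t + H) : ℝ) ≤
        isoN F t H (2 * Real.pi * r / Real.log T) (4 * Real.pi / 5 / (h * Real.log T))) := by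
  have hpi := Real.pi_pos
  obtain ⟨x0, hx0, hxh, h1⟩ := iso_det hF hh hr0 hr (half_pos hε)
  obtain ⟨e0, he0, h2⟩ := h1 x0 le_rfl hxh
  obtain ⟨T0, hT0, h3⟩ := h2 (min e0 (1 / 2)) (lt_min he0 (by norm_num)) (min_le_left _ _)
  obtain ⟨C, hC, hcnt⟩ := iso_count hF
  have h4 : AA η (fun T H t => (H ≤ T / 8 → ((pd h r - ε / 2) * (NN F t (t + H) : ℝ) ≤
        (H344.SI F t (t + H) (2 * Real.pi * r / Real.log T)
          (4 * Real.pi / 5 / (h * Real.log T))).card ∧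
        1 / 2 * (H * Real.log T / (2 * Real.pi)) ≤ (NN F t (t + H) : ℝ)))) := by
    refine aa_of_det hF hB hη0 hη1 hh1 hx0 hxh (lt_min he0 (by norm_num : (0 : ℝ) < 1 / 2))
      (T1 := T0) fun T hT t ht H hH hg _ => ⟨h3 T hT t ht H (by linarith) hg, ?_⟩
    have hT10 : 10 ≤ T := hT0.trans hT
    have hlog : 0 < Real.log T := Real.log_pos (by linarith)
    have hM0 : 0 < H * Real.log T / (2 * Real.pi) := by positivity
    have h5 := (abs_le.mp hg.1).1
    have h6 : min e0 (1 / 2) * (H * Real.log T / (2 * Real.pi)) ≤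
        1 / 2 * (H * Real.log T / (2 * Real.pi)) :=
      mul_le_mul_of_nonneg_right (min_le_right _ _) hM0.le
    linarith
  obtain ⟨T2, hT2⟩ := ((tendsto_rpow_atTop hη0).eventually_ge_atTop
    (max 5 (16 * Real.pi * C / ε))).exists_forall_of_atTop
  obtain ⟨T3, hT3⟩ := (Real.tendsto_log_atTop.eventually_ge_atTop
    (2 * Real.pi * r)).exists_forall_of_atTop
  obtain ⟨δ, hδ, T4, h4⟩ := h4
  refine ⟨δ, hδ, max (max T4 T2) (max T3 10), fun T hT H hH1 hH2 => (measure_mono ?_).trans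
    (h4 T (((le_max_left _ _).trans (le_max_left _ _)).trans hT) H hH1 hH2)⟩
  have hTT2 := hT2 T (((le_max_right _ _).trans (le_max_left _ _)).trans hT)
  have hTT3 := hT3 T (((le_max_left _ _).trans (le_max_right _ _)).trans hT)
  have hT10 : 10 ≤ T := ((le_max_right _ _).trans (le_max_right _ _)).trans hT
  rintro t ⟨ht1, ht2⟩
  refine ⟨ht1, fun hcon => ht2 ?_⟩
  obtain ⟨h5, h6⟩ := hcon hH2
  have hlog : 0 < Real.log T := Real.log_pos (by linarith)
  have hH5 : 5 ≤ H := ((le_max_left _ _).trans hTT2).trans hH1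
  have hHC : 16 * Real.pi * C / ε ≤ H := ((le_max_right _ _).trans hTT2).trans hH1
  have hρ1 : 2 * Real.pi * r / Real.log T ≤ 1 := by
    rw [div_le_one hlog]; exact hTT3
  have h7 := hcnt t (by linarith [ht1.1]) H hH5 (by linarith [ht1.1]) t (t + H) le_rfl
    (by linarith) (by linarith) le_rfl (2 * Real.pi * r / Real.log T)
    (4 * Real.pi / 5 / (h * Real.log T)) hρ1
  have h8 : Real.log t ≤ 2 * Real.log T := by
    rw [← Real.log_rpow (by linarith)]
    apply Real.log_le_log (by linarith [ht1.1])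
    norm_num
    nlinarith [ht1.2]
  have h9 : C * Real.log t ≤ ε / 2 * (NN F t (t + H) : ℝ) := by
    have h10 : C * Real.log t ≤ C * (2 * Real.log T) := mul_le_mul_of_nonneg_left h8 hC.le
    refine h10.trans ?_
    have h11 : ε / 2 * (1 / 2 * (H * Real.log T / (2 * Real.pi))) ≤
        ε / 2 * (NN F t (t + H) : ℝ) := mul_le_mul_of_nonneg_left h6 (by positivity)
    refine le_trans ?_ h11
    rw [div_le_iff₀ hε] at hHC
    have e : ε / 2 * (1 / 2 * (H * Real.log T / (2 * Real.pi))) =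
        (H * ε) * (Real.log T / (8 * Real.pi)) := by field_simp; ring
    rw [e]
    have h12 : 16 * Real.pi * C * (Real.log T / (8 * Real.pi)) ≤
        (H * ε) * (Real.log T / (8 * Real.pi)) :=
      mul_le_mul_of_nonneg_right hHC (by positivity)
    refine le_trans (le_of_eq ?_) h12
    field_simp
    ring
  linarith

/-- the measure of the neighbourhoods of the simple critical zeros -/
theorem nbhd_aa {F : ℂ → ℂ} (hF : GoodL F) (hB : ∀ τ : ℝ, 0 < τ → τ ≤ 1 → BZr F τ)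
    {η h ε : ℝ} (hη0 : 0 < η) (hη1 : η < 1) (hh : 0 < h) (hh1 : 2 * h ≤ 1 + η) (hε : 0 < ε) :
    AA η (fun T H t => ∀ r : ℝ, 0 < r → h * r ≤ 9 / 10 →
        r * (2 - c0 h - ε) * H ≤
          (volume (UU (r * (2 * Real.pi / Real.log T) / 2) (SF F t (t + H)))).toReal) := by
  obtain ⟨x0, hx0, hxh, h1⟩ := nbhd_det hF hh hε
  obtain ⟨e0, he0, h2⟩ := h1 x0 le_rfl hxh
  obtain ⟨T0, -, h3⟩ := h2 e0 he0 le_rfl
  exact aa_of_det hF hB hη0 hη1 hh1 hx0 hxh he0 fun T hT t ht H hH hg => h3 T hT t ht H hH hg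

/-- both properties hold in almost all intervals -/
theorem aa_and {η : ℝ} {P Q : ℝ → ℝ → ℝ → Prop} (hP : AA η P) (hQ : AA η Q) :
    AA η (fun T H t => P T H t ∧ Q T H t) := by
  obtain ⟨δ1, hδ1, T1, h1⟩ := hP
  obtain ⟨δ2, hδ2, T2, h2⟩ := hQ
  set δ := min δ1 δ2 / 2 with hδ
  have hδ0 : 0 < δ := by rw [hδ]; positivity
  have hmin : 0 < min δ1 δ2 := by positivity
  obtain ⟨T3, hT3⟩ := ((tendsto_rpow_atTop hδ0).eventually_ge_atTop (2 : ℝ)).exists_forall_of_atTop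
  refine ⟨δ, hδ0, max (max T1 T2) (max T3 1), fun T hT H hH1 hH2 => ?_⟩
  have hT1 : T1 ≤ T := ((le_max_left _ _).trans (le_max_left _ _)).trans hT
  have hT2 : T2 ≤ T := ((le_max_right _ _).trans (le_max_left _ _)).trans hT
  have hT3' := hT3 T (((le_max_left _ _).trans (le_max_right _ _)).trans hT)
  have hT4 : 1 ≤ T := ((le_max_right _ _).trans (le_max_right _ _)).trans hT
  have hTpos : 0 < T := by linarith
  have e : {t : ℝ | t ∈ Set.Icc T (2 * T) ∧ ¬ (P T H t ∧ Q T H t)} ⊆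
      {t : ℝ | t ∈ Set.Icc T (2 * T) ∧ ¬ P T H t} ∪ {t : ℝ | t ∈ Set.Icc T (2 * T) ∧ ¬ Q T H t} := by
    rintro t ⟨h3, h4⟩
    by_cases hc : P T H t
    · exact Or.inr ⟨h3, fun hq => h4 ⟨hc, hq⟩⟩
    · exact Or.inl ⟨h3, hc⟩
  refine (measure_mono e).trans ((measure_union_le _ _).trans
    ((add_le_add (h1 T hT1 H hH1 hH2) (h2 T hT2 H hH1 hH2)).trans ?_))
  rw [← ENNReal.ofReal_add (by positivity) (by positivity)]
  apply ENNReal.ofReal_le_ofReal
  have h5 : ∀ d : ℝ, 2 * δ ≤ d → T ^ (1 - d) ≤ T ^ (1 - 2 * δ) := fun d hd =>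
    Real.rpow_le_rpow_of_exponent_le hT4 (by linarith)
  have h6 := h5 δ1 (by rw [hδ]; linarith [min_le_left δ1 δ2])
  have h7 := h5 δ2 (by rw [hδ]; linarith [min_le_right δ1 δ2])
  have h8 : T ^ (1 - δ) = T ^ δ * T ^ (1 - 2 * δ) := by
    rw [← Real.rpow_add hTpos]; congr 1; ring
  rw [h8]
  have h9 : 0 ≤ T ^ (1 - 2 * δ) := by positivity
  nlinarith

end Pool.Agent.Y796.PA
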